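import Pool.Agent.R731.SO.Final

/-!
# A manifold with a single singular orbit, of cohomogeneity seven, with an invariant metric of
positive Ricci curvature (MP_d84343_gt, Q1)
-/

set_option autoImplicit false

open scoped Quaternion

namespace Pool.Agent.Results.MP_d84343_gt.SingleSingularOrbit

open Pool.Agent.R731.SO

/-- There is a continuous (hence smooth) orthogonal action `ρ` of the compact Lie group `SU(2)` of
unit quaternions on `ℝ¹¹` such that for the induced action on the unit sphere `S¹⁰`:
a principal isotropy type exists; there is exactly one singular orbit; the set of non-principal
orbits is finite; the cohomogeneity is `7`; and there is a `ρ`-invariant Riemannian metric on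
`S¹⁰` whose Levi-Civita connection has positive Ricci curvature (all this is spelled out in
`ExistsAction`). -/
theorem result : CompactSpace SU2 ∧ ExistsAction SU2 E11 7 :=
  ⟨isCompact_iff_compactSpace.mp (isCompact_sphere _ _), main⟩

end Pool.Agent.Results.MP_d84343_gt.SingleSingularOrbit
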